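import Mathlib
import Pool.Agent.Helper75.CpProduct

set_option autoImplicit false

namespace Pool.Agent.Results.MP_e70507_gt.CountableTightness

open Topology Set Filter Pool.Agent.Helper75.CpProduct

universe u v

/-- Q1 of MP_e70507_gt, affirmative answer. If every compact subspace of C_p(X) has countable
tightness, then so has every compact subspace of C_p(X x K), for every compact K. -/
theorem result (X : Type u) [TopologicalSpace X]
    (hX : ∀ S : Set (Cp X), IsCompact S → CountablyTight S)
    (K : Type v) [TopologicalSpace K] [CompactSpace K] :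
    ∀ S : Set (Cp (X × K)), IsCompact S → CountablyTight S := by
  intro Z hZ
  rw [ct_iff]
  intro A hA z hz hcl
  let C : Set (Cp (X × K)) := {y | ∃ B : Set (Cp (X × K)), B ⊆ A ∧ B.Countable ∧ y ∈ closure B}
  have hCZ : C ⊆ Z := by
    rintro y ⟨B, hB, -, hy⟩
    exact closure_minimal (hB.trans hA) hZ.isClosed hy
  have hAC : A ⊆ C := fun a ha =>
    ⟨{a}, singleton_subset_iff.2 ha, countable_singleton a, subset_closure rfl⟩
  have hC : ∀ B : Set (Cp (X × K)), B ⊆ C → B.Countable → closure B ⊆ C := by
    intro B hB hBc y hy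
    have hB' : ∀ b ∈ B, ∃ B' : Set (Cp (X × K)), B' ⊆ A ∧ B'.Countable ∧ b ∈ closure B' :=
      fun b hb => hB hb
    choose! g hgA hgc hg using hB'
    refine ⟨⋃ b ∈ B, g b, iUnion₂_subset hgA, hBc.biUnion hgc, ?_⟩
    have : B ⊆ closure (⋃ b ∈ B, g b) := fun b hb =>
      closure_mono (subset_biUnion_of_mem (u := g) hb) (hg b hb)
    exact closure_minimal this isClosed_closure hy
  exact omega_closed hX hZ hCZ hC (closure_mono hAC hcl)

end Pool.Agent.Results.MP_e70507_gt.CountableTightness
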