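import Mathlib
import Pool.Agent.Helper75.CpProduct

set_option autoImplicit false

namespace Pool.Agent.Results.MP_e70507_gt.FrechetUrysohn

open Topology Set Filter Pool.Agent.Helper75.CpProduct

universe u v

lemma fu_iff {Y : Type u} [TopologicalSpace Y] (S : Set Y) :
    FrechetUrysohnSpace S ↔ ∀ A : Set Y, A ⊆ S → ∀ z ∈ S, z ∈ closure A →
      ∃ a : ℕ → Y, (∀ n, a n ∈ A) ∧ Tendsto a atTop (𝓝 z) := by
  constructor
  · intro h A hA z hz hcl
    have h1 : (⟨z, hz⟩ : S) ∈ closure (Subtype.val ⁻¹' A : Set S) := by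
      rw [closure_subtype, Subtype.image_preimage_coe, inter_eq_right.2 hA]
      exact hcl
    obtain ⟨a, ha, hlim⟩ := h.closure_subset_seqClosure _ h1
    exact ⟨fun n => a n, ha, (continuous_subtype_val.tendsto _).comp hlim⟩
  · intro h
    constructor
    intro A z hz
    rw [closure_subtype] at hz
    obtain ⟨a, ha, hlim⟩ := h (Subtype.val '' A) (by rintro _ ⟨a, _, rfl⟩; exact a.2)
      z z.2 hz
    choose b hbA hb using ha
    refine ⟨b, hbA, ?_⟩
    rw [tendsto_subtype_rng]
    simp_rw [hb]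
    exact hlim

lemma tight_of_fu {Y : Type u} [TopologicalSpace Y] (S : Set Y) (h : FrechetUrysohnSpace S) :
    CountablyTight S := by
  rw [ct_iff]
  intro A hA z hz hcl
  obtain ⟨a, ha, hlim⟩ := (fu_iff S).1 h A hA z hz hcl
  exact ⟨range a, by rintro _ ⟨n, rfl⟩; exact ha n, countable_range a,
    mem_closure_of_tendsto hlim (univ_mem' fun n => ⟨n, rfl⟩)⟩

/-- Q2 of MP_e70507_gt, affirmative answer. If every compact subspace of C_p(X) is
Frechet-Urysohn, then so is every compact subspace of C_p(X x K), for every compact K. -/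
theorem result (X : Type u) [TopologicalSpace X]
    (hX : ∀ S : Set (Cp X), IsCompact S → FrechetUrysohnSpace S)
    (K : Type v) [TopologicalSpace K] [CompactSpace K] :
    ∀ S : Set (Cp (X × K)), IsCompact S → FrechetUrysohnSpace S := by
  intro Z hZ
  rw [fu_iff]
  intro A hA p hp hcl
  have hgood : ∀ S : Set (Cp X), IsCompact S → CountablyTight S :=
    fun S hS => tight_of_fu S (hX S hS)
  -- reduction to a countable set
  obtain ⟨A0, hA0, hA0c, hcl0⟩ : ∃ B : Set (Cp (X × K)), B ⊆ A ∧ B.Countable ∧ p ∈ closure B := by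
    let C : Set (Cp (X × K)) := {y | ∃ B : Set (Cp (X × K)), B ⊆ A ∧ B.Countable ∧ y ∈ closure B}
    have hCZ : C ⊆ Z := by
      rintro y ⟨B, hB, -, hy⟩
      exact closure_minimal (hB.trans hA) hZ.isClosed hy
    have hAC : A ⊆ C := fun a ha =>
      ⟨{a}, singleton_subset_iff.2 ha, countable_singleton a, subset_closure rfl⟩
    have hC : ∀ B : Set (Cp (X × K)), B ⊆ C → B.Countable → closure B ⊆ C := by
      intro B hB hBc y hy
      have hB' : ∀ b ∈ B, ∃ B' : Set (Cp (X × K)), B' ⊆ A ∧ B'.Countable ∧ b ∈ closure B' :=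
        fun b hb => hB hb
      choose! g hgA hgc hg using hB'
      refine ⟨⋃ b ∈ B, g b, iUnion₂_subset hgA, hBc.biUnion hgc, ?_⟩
      have : B ⊆ closure (⋃ b ∈ B, g b) := fun b hb =>
        closure_mono (subset_biUnion_of_mem (u := g) hb) (hg b hb)
      exact closure_minimal this isClosed_closure hy
    exact omega_closed hgood hZ hCZ hC (closure_mono hAC hcl)
  obtain ⟨Q0, hQ0c, hQ0⟩ := exists_N (K := K) hgood (A0 ∪ {p}) (hA0c.union (countable_singleton p))
  rcases isEmpty_or_nonempty K with hK | ⟨⟨κ0⟩⟩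
  · obtain ⟨a, ha⟩ : A0.Nonempty := by
      rw [← closure_nonempty_iff]; exact ⟨p, hcl0⟩
    refine ⟨fun _ => a, fun _ => hA0 ha, ?_⟩
    have : a = p := by
      apply Subtype.ext
      funext y
      exact (hK.false y.2).elim
    rw [this]
    exact tendsto_const_nhds
  obtain ⟨q, hq⟩ := (hQ0c.union (countable_singleton κ0)).exists_eq_range ⟨κ0, Or.inr rfl⟩
  have hcomp : IsCompact (Psi p q '' Z) := hZ.image (Psi_cont p q)
  have h1 : Psi p q p ∈ closure (Psi p q '' A0) :=
    image_closure_subset_closure_image (Psi_cont p q) ⟨p, hcl0, rfl⟩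
  obtain ⟨b, hb, hblim⟩ := (fu_iff _).1 (hX _ hcomp) (Psi p q '' A0)
    (image_mono (hA0.trans hA)) _ ⟨p, hp, rfl⟩ h1
  choose a haA ha using hb
  refine ⟨a, fun n => hA0 (haA n), ?_⟩
  rw [tendsto_iff_ultrafilter]
  intro 𝒱 h𝒱
  obtain ⟨z, hzZ, hz⟩ := hZ.ultrafilter_le_nhds (𝒱.map a) (by
    rw [Ultrafilter.coe_map, le_principal_iff]
    exact Filter.mem_map.2 (Filter.univ_mem' fun n => hA (hA0 (haA n))))
  have hzt : Tendsto a 𝒱 (𝓝 z) := hz
  have hzt' : ∀ y : X × K, Tendsto (fun n => (a n).1 y) 𝒱 (𝓝 (z.1 y)) := by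
    intro y
    exact (((continuous_apply y).comp continuous_subtype_val).tendsto z).comp hzt
  have hPsi : Psi p q z = Psi p q p := by
    have t1 : Tendsto (fun n => Psi p q (a n)) 𝒱 (𝓝 (Psi p q z)) :=
      ((Psi_cont p q).tendsto z).comp hzt
    have t2 : Tendsto (fun n => Psi p q (a n)) 𝒱 (𝓝 (Psi p q p)) := by
      simp_rw [ha]
      exact hblim.mono_left h𝒱
    exact tendsto_nhds_unique t1 t2
  suffices z = p by rwa [← this]
  apply Subtype.ext
  funext y
  obtain ⟨x, κ⟩ := y
  obtain ⟨κ', hκ', hrep⟩ := hQ0 κ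
  have e1 : z.1 (x, κ) = z.1 (x, κ') := by
    have t := hzt' (x, κ)
    have : (fun n => (a n).1 (x, κ)) = fun n => (a n).1 (x, κ') := by
      funext n
      exact hrep (a n) (Or.inl (haA n)) x
    rw [this] at t
    exact tendsto_nhds_unique t (hzt' (x, κ'))
  have e2 : p.1 (x, κ) = p.1 (x, κ') := hrep p (Or.inr rfl) x
  have e3 : z.1 (x, κ') = p.1 (x, κ') := by
    have hsub : closure Q0 ⊆ {κ'' | z.1 (x, κ'') = p.1 (x, κ'')} := by
      apply closure_minimal
      · intro κ'' hκ''
        have : κ'' ∈ range q := by rw [← hq]; exact Or.inl hκ''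
        obtain ⟨n, rfl⟩ := this
        exact eq_of_Psi hPsi x n
      · have h1 : Continuous fun κ'' => z.1 (x, κ'') := by have := z.2; fun_prop
        have h2 : Continuous fun κ'' => p.1 (x, κ'') := by have := p.2; fun_prop
        exact isClosed_eq h1 h2
    exact hsub hκ'
  rw [e1, e3, e2]

end Pool.Agent.Results.MP_e70507_gt.FrechetUrysohn
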